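import Mathlib
import Pool.Agent.Lib.MP_f0b429_co.Num

set_option autoImplicit false

namespace Pool.Agent.Results.MP_f0b429_co.Disproof

open Pool.Agent.Lib.MP_f0b429_co

/-- `M n`: the number of distinct integers of the form `n! / (i_1! ⋯ i_k!)` with `k ≥ 1`,
`i_1, …, i_k ≥ 0` and `i_1 + ⋯ + i_k = n`. -/
noncomputable def M (n : ℕ) : ℕ :=
  Set.ncard {v : ℕ | ∃ (k : ℕ) (i : Fin k → ℕ), 1 ≤ k ∧ ∑ j, i j = n ∧
    v = n.factorial / ∏ j, (i j).factorial}

/-- `pstar n`: the number of partitions of `n` in which every part is at most `6` or a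
multiple of `3`. -/
def pstar (n : ℕ) : ℕ :=
  (Finset.univ.filter (fun p : Nat.Partition n => ∀ x ∈ p.parts, x ≤ 6 ∨ 3 ∣ x)).card

lemma M_le {n s : ℕ} (hn : n ≤ 4 ^ s) :
    M n ≤ ∏ j : Fin (2 * s), (2 ^ (2 * s - (j : ℕ)) + (Blk j).card).choose (Blk j).card := by
  classical
  set 𝒱 : Finset ℕ := Finset.univ.image (fun p : Nat.Partition n => fp p.parts) with h𝒱
  have h1 : {v : ℕ | ∃ (k : ℕ) (i : Fin k → ℕ), 1 ≤ k ∧ ∑ j, i j = n ∧
    v = n.factorial / ∏ j, (i j).factorial} ⊆ ((𝒱.image (fun x => n.factorial / x) : Finset ℕ) :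
      Set ℕ) := by
    rintro v ⟨k, i, _, hsum, rfl⟩
    rw [Finset.mem_coe, Finset.mem_image]
    refine ⟨∏ j, (i j).factorial, ?_, rfl⟩
    rw [h𝒱, Finset.mem_image]
    have hs : (Finset.univ.val.map i).sum = n := hsum
    refine ⟨Nat.Partition.ofSums n (Finset.univ.val.map i) hs, Finset.mem_univ _, ?_⟩
    have h2 : ∀ S : Multiset ℕ, fp (S.filter (· ≠ 0)) = fp S := by
      intro S
      induction S using Multiset.induction with
      | empty => simp
      | cons a S ih =>
        by_cases ha : a = 0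
        · subst ha
          rw [Multiset.filter_cons_of_neg _ (by simp), ih, fp_cons, Nat.factorial_zero, one_mul]
        · rw [Multiset.filter_cons_of_pos (p := fun x => x ≠ 0) _ ha, fp_cons, fp_cons, ih]
    show fp ((Finset.univ.val.map i).filter (· ≠ 0)) = _
    rw [h2]
    unfold fp
    rw [Multiset.map_map]
    rfl
  calc M n ≤ ((𝒱.image (fun x => n.factorial / x) : Finset ℕ) : Set ℕ).ncard :=
        Set.ncard_le_ncard h1 (Finset.finite_toSet _)
    _ = (𝒱.image (fun x => n.factorial / x)).card := Set.ncard_coe_finset _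
    _ ≤ 𝒱.card := Finset.card_image_le
    _ ≤ _ := by
      apply card_values_le
      intro v hv
      rw [h𝒱, Finset.mem_image] at hv
      obtain ⟨p, _, rfl⟩ := hv
      exact ⟨p.parts, by rw [p.parts_sum]; exact hn, rfl⟩

lemma pstar_ge {n r : ℕ} (hr : ∑ i ∈ Finset.range r, 3 * (i + 1) ≤ n) : 2 ^ r ≤ pstar n := by
  classical
  have hsub : ∀ A ∈ (Finset.range r).powerset, ∑ i ∈ A, 3 * (i + 1) ≤ n := by
    intro A hA
    rw [Finset.mem_powerset] at hA
    exact (Finset.sum_le_sum_of_subset hA).trans hr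
  let mk : (A : Finset ℕ) → ∑ i ∈ A, 3 * (i + 1) ≤ n → Nat.Partition n := fun A hA =>
    { parts := A.val.map (fun i => 3 * (i + 1)) +
        Multiset.replicate (n - ∑ i ∈ A, 3 * (i + 1)) 1
      parts_pos := by
        intro i hi
        rw [Multiset.mem_add, Multiset.mem_map] at hi
        rcases hi with ⟨a, _, rfl⟩ | hi
        · omega
        · rw [Multiset.eq_of_mem_replicate hi]; norm_num
      parts_sum := by
        rw [Multiset.sum_add, Multiset.sum_replicate]
        have : (A.val.map (fun i => 3 * (i + 1))).sum = ∑ i ∈ A, 3 * (i + 1) := rfl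
        rw [this]
        simp only [smul_eq_mul, mul_one]
        omega }
  have hmem : ∀ (A : Finset ℕ) (hA : ∑ i ∈ A, 3 * (i + 1) ≤ n) (i : ℕ),
      3 * (i + 1) ∈ (mk A hA).parts ↔ i ∈ A := by
    intro A hA i
    show 3 * (i + 1) ∈ A.val.map (fun i => 3 * (i + 1)) +
        Multiset.replicate (n - ∑ i ∈ A, 3 * (i + 1)) 1 ↔ i ∈ A
    rw [Multiset.mem_add, Multiset.mem_map]
    constructor
    · rintro (⟨a, ha, hai⟩ | h)
      · have : a = i := by omega
        rw [← this]; exact ha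
      · have := Multiset.eq_of_mem_replicate h
        omega
    · intro hi
      exact Or.inl ⟨i, hi, rfl⟩
  have hcard : (Finset.range r).powerset.card = 2 ^ r := by
    rw [Finset.card_powerset, Finset.card_range]
  rw [← hcard]
  unfold pstar
  apply Finset.card_le_card_of_injOn
    (fun A => if h : ∑ i ∈ A, 3 * (i + 1) ≤ n then mk A h else mk ∅ (by simp))
  · intro A hA
    have hA' := hsub A hA
    simp only [Finset.coe_filter, Finset.mem_univ, true_and, Set.mem_ofPred_eq]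
    rw [dif_pos hA']
    intro x hx
    have hx' : x ∈ A.val.map (fun i => 3 * (i + 1)) +
        Multiset.replicate (n - ∑ i ∈ A, 3 * (i + 1)) 1 := hx
    rw [Multiset.mem_add, Multiset.mem_map] at hx'
    rcases hx' with ⟨a, _, rfl⟩ | hx'
    · exact Or.inr ⟨a + 1, rfl⟩
    · left
      rw [Multiset.eq_of_mem_replicate hx']; norm_num
  · intro A hA B hB hAB
    have hA' := hsub A hA
    have hB' := hsub B hB
    simp only [dif_pos hA', dif_pos hB'] at hAB
    ext i
    rw [← hmem A hA' i, ← hmem B hB' i, hAB]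

lemma sum_le_aux (t : ℕ) : ∑ i ∈ Finset.range (2 ^ (t + 8)), 3 * (i + 1) ≤ 4 ^ (t + 9) := by
  have h1 : (∑ i ∈ Finset.range (2 ^ (t + 8)), (i + 1)) * 2 = 2 ^ (t + 8) * (2 ^ (t + 8) + 1) := by
    have := Finset.sum_range_id_mul_two (2 ^ (t + 8) + 1)
    rw [Finset.sum_range_succ'] at this
    simp only [add_zero, Nat.add_sub_cancel] at this
    rw [this]; ring
  have h2 : 4 ^ (t + 9) = 4 * (2 ^ (t + 8) * 2 ^ (t + 8)) := by
    rw [← pow_add]
    have : (4 : ℕ) = 2 ^ 2 := by norm_num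
    rw [this, ← pow_mul, ← pow_add]
    congr 1
    ring
  have h3 : 1 ≤ 2 ^ (t + 8) := Nat.one_le_two_pow
  rw [← Finset.mul_sum, h2]
  nlinarith

/-- **Answer to Q1 (disproof)**: `M n < pstar n` for all sufficiently large `n`. -/
theorem result : ∃ N : ℕ, ∀ n : ℕ, N ≤ n → M n < pstar n := by
  refine ⟨4 ^ (2 ^ 22 + 9), ?_⟩
  intro n hn
  -- choose `t` with `4^(t+9) ≤ n < 4^(t+10)`
  obtain ⟨t, ht, hn1, hn2⟩ : ∃ t, 2 ^ 22 ≤ t ∧ 4 ^ (t + 9) ≤ n ∧ n ≤ 4 ^ (t + 10) := by
    have hn0 : n ≠ 0 := by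
      intro h
      rw [h] at hn
      exact absurd hn (not_le.mpr (pow_pos (by norm_num) _))
    have hlog : 2 ^ 22 + 9 ≤ Nat.log 4 n := by
      exact Nat.le_log_of_pow_le (by norm_num) hn
    refine ⟨Nat.log 4 n - 9, by omega, ?_, ?_⟩
    · have h1 : Nat.log 4 n - 9 + 9 = Nat.log 4 n := by omega
      rw [h1]
      exact Nat.pow_log_le_self 4 hn0
    · have h1 : Nat.log 4 n - 9 + 10 = (Nat.log 4 n).succ := by omega
      rw [h1]
      exact (Nat.lt_pow_succ_log_self (by norm_num) n).le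
  have h1 : M n ≤ 2 ^ (120 * 2 ^ t) := (M_le hn2).trans (prod_le ht)
  have h2 : 2 ^ (2 ^ (t + 8)) ≤ pstar n := pstar_ge ((sum_le_aux t).trans hn1)
  have h3 : 2 ^ (120 * 2 ^ t) < 2 ^ (2 ^ (t + 8)) := by
    apply Nat.pow_lt_pow_right (by norm_num)
    rw [pow_add]
    have : 0 < 2 ^ t := by positivity
    omega
  omega

end Pool.Agent.Results.MP_f0b429_co.Disproof
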